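import Pool.Agent.Helper88.CR.GoalsB

set_option autoImplicit false

open Finset Filter Topology

open scoped Classical

namespace Pool.Agent.Helper76.CR

open Pool.Agent.Helper88.PP (pr Rg om Sf SS uu vv ee LA VV QQ cost)
open Pool.Agent.Helper88.GM (NI XI gB Sr In)
open Pool.Agent.Helper88.CG (tw pw th Wt Dt qE mE)
open Pool.Agent.Helper88.CR (StmtLQ StmtKR StmtPQ)

/-- the classes modulo `R` above the class `b` modulo `Q` -/
noncomputable def cls (R Q b : ℕ) : Finset ℕ := (range R).filter (fun a => a % Q = b)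

lemma sum_cls {R Q : ℕ} (hR : 0 < R) (hQ : Q ∣ R) (u v b : ℕ) (f : ℕ → ℝ) :
    ∑ n ∈ NI u v Q b, f n = ∑ a ∈ cls R Q b, ∑ n ∈ NI u v R a, f n := by
  have hmap : ∀ n ∈ NI u v Q b, n % R ∈ cls R Q b := by
    intro n hn
    simp only [NI, mem_filter] at hn
    simp only [cls, mem_filter, mem_range]
    exact ⟨Nat.mod_lt _ hR, by rw [Nat.mod_mod_of_dvd _ hQ]; exact hn.2⟩
  rw [← Finset.sum_fiberwise_of_maps_to hmap f]
  refine Finset.sum_congr rfl ?_
  intro a ha
  refine Finset.sum_congr ?_ (fun _ _ => rfl)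
  ext n
  simp only [cls, mem_filter, mem_range] at ha
  simp only [NI, mem_filter]
  constructor
  · rintro ⟨⟨h1, _⟩, h3⟩
    exact ⟨h1, h3⟩
  · rintro ⟨h1, h3⟩
    refine ⟨⟨h1, ?_⟩, h3⟩
    rw [← Nat.mod_mod_of_dvd n hQ, h3]
    exact ha.2

lemma card_cls {R Q b : ℕ} (hR : 0 < R) (hQ : Q ∣ R) (hb : b < Q) :
    (cls R Q b).card * Q = R := by
  obtain ⟨t, rfl⟩ := hQ
  have hQ0 : 0 < Q := lt_of_le_of_lt (Nat.zero_le _) hb
  have : cls (Q * t) Q b = (range t).image (fun i => b + Q * i) := by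
    ext a
    simp only [cls, mem_filter, mem_range, mem_image]
    constructor
    · rintro ⟨h1, h2⟩
      refine ⟨a / Q, ?_, ?_⟩
      · exact Nat.div_lt_of_lt_mul h1
      · rw [← h2]; exact Nat.mod_add_div a Q
    · rintro ⟨i, hi, rfl⟩
      refine ⟨?_, ?_⟩
      · calc b + Q * i < Q + Q * i := by omega
          _ = Q * (i + 1) := by ring
          _ ≤ Q * t := Nat.mul_le_mul_left _ hi
      · rw [Nat.add_mul_mod_self_left]; exact Nat.mod_eq_of_lt hb
  rw [this, Finset.card_image_of_injective _ (fun i j h => by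
    have : Q * i = Q * j := by simpa using h
    exact Nat.eq_of_mul_eq_mul_left hQ0 this), card_range]
  ring

lemma XI_cls {R Q b : ℕ} (hR : 0 < R) (hQ : Q ∣ R) (hb : b < Q) (u v : ℕ) :
    ((cls R Q b).card : ℝ) * XI u v R = XI u v Q := by
  have h := card_cls hR hQ hb
  have hQ0 : (Q : ℝ) ≠ 0 := by
    have : 0 < Q := lt_of_le_of_lt (Nat.zero_le _) hb
    positivity
  have hR0 : (R : ℝ) ≠ 0 := by positivity
  have h' : ((cls R Q b).card : ℝ) * Q = R := by exact_mod_cast h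
  simp only [XI]
  have hc : ((cls R Q b).card : ℝ) = R / Q := by
    field_simp
    exact h'
  rw [hc]
  field_simp

lemma QQ_pos (x : ℕ) : 0 < QQ x := primorial_pos _

lemma mem_cls {R Q b a : ℕ} (h : a ∈ cls R Q b) : a < R := by
  simp only [cls, mem_filter, mem_range] at h
  exact h.1

theorem lq (h : Pool.Agent.Helper88.CG.StmtLB) : StmtLQ := by
  intro η hη
  obtain ⟨E0, h0⟩ := h η hη
  refine ⟨E0, ?_⟩
  intro E z x y hE hS Q b hQ hb P hP hc j hj hjP
  have hR := QQ_pos x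
  have key : ∀ a ∈ cls (QQ x) Q b, _ := fun a ha =>
    h0 E z x y hE hS a (mem_cls ha) P hP hc j hj hjP
  have hsum := Finset.sum_le_sum key
  rw [sum_cls hR hQ (x / 32) x b (fun n => pw x (n + j) * Wt E z y P n ^ 2),
    sum_cls hR hQ (x / 32) x b (fun n => pw x (n + j))]
  refine le_trans (le_of_eq ?_) hsum
  rw [← XI_cls hR hQ hb (x / 32) x]
  simp only [mul_sub, Finset.sum_sub_distrib, ← Finset.mul_sum, Finset.sum_const, nsmul_eq_mul]
  ring

theorem kr (h : Pool.Agent.Helper88.CG.StmtKQ) : StmtKR := by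
  obtain ⟨c, hc0, h⟩ := h
  refine ⟨c, hc0, ?_⟩
  intro η hη
  obtain ⟨E0, h0⟩ := h η hη
  refine ⟨E0, ?_⟩
  intro E z x y hE hS Q b hQ hb P hP hc
  have hR := QQ_pos x
  have key : ∀ a ∈ cls (QQ x) Q b, _ := fun a ha =>
    h0 E z x y hE hS a (mem_cls ha) P hP hc
  have hsum := Finset.sum_le_sum key
  rw [sum_cls hR hQ (x / 32) x b (fun n => Wt E z y P n ^ 2 *
    ((P.filter (fun h => (n + h).Prime)).card : ℝ))]
  refine le_trans hsum (le_of_eq ?_)
  rw [← XI_cls hR hQ hb (x / 32) x]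
  simp only [Finset.sum_const, nsmul_eq_mul]
  ring

theorem pq (h : Pool.Agent.Helper88.CG.StmtPB) : StmtPQ := by
  obtain ⟨C, hC0, E0, h0⟩ := h
  refine ⟨C, hC0, E0, ?_⟩
  intro E z x y hE hS Q b hQ hb P hP hc j hj j' hj' hjP hjP' hjj
  have hR := QQ_pos x
  have key : ∀ a ∈ cls (QQ x) Q b, _ := fun a ha =>
    h0 E z x y hE hS a (mem_cls ha) P hP hc j hj j' hj' hjP hjP' hjj
  have hsum := Finset.sum_le_sum key
  rw [Finset.sum_filter, sum_cls hR hQ (x / 32) x b
    (fun n => if (n + j).Prime ∧ (n + j').Prime then Wt E z y P n ^ 2 else 0)]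
  have e1 : ∀ a ∈ cls (QQ x) Q b,
      ∑ n ∈ NI (x / 32) x (QQ x) a, (if (n + j).Prime ∧ (n + j').Prime then
        Wt E z y P n ^ 2 else 0) = ∑ n ∈ (NI (x / 32) x (QQ x) a).filter
          (fun n => (n + j).Prime ∧ (n + j').Prime), Wt E z y P n ^ 2 := by
    intro a _
    rw [Finset.sum_filter]
  rw [Finset.sum_congr rfl e1]
  refine le_trans hsum (le_of_eq ?_)
  rw [← XI_cls hR hQ hb (x / 32) x]
  simp only [Finset.sum_const, nsmul_eq_mul]
  ring

end Pool.Agent.Helper76.CR
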